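import Pool.Agent.KarpGP.MainContainment

/-!
For every graph `H` with at least one edge on `n` vertices, the zero-error randomized query
complexity of the graph property of containing a copy of `H` is at least `c n ^ 2 / (log n) ^ 4`.
The model of randomized query algorithms is, word for word, the one used in the statement
S14313 of this problem.
-/

set_option autoImplicit false
open Classical

namespace Pool.Agent.Results.MP_00c5f1_lc.ContainmentNearQuadratic

theorem result :
  ∃ c : ℝ, 0 < c ∧ ∀ n : ℕ, 2 ≤ n → ∀ H : SimpleGraph (Fin n), H ≠ ⊥ →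
      ∀ (k K : ℕ)
        (next : Fin k → List (Sym2 (Fin n) × Bool) → Option (Sym2 (Fin n)))
        (out : Fin k → List (Sym2 (Fin n) × Bool) → Bool)
        (p : Fin k → ℝ),
        (∀ i, 0 ≤ p i) → (∑ i, p i) = 1 →
        (∀ (i : Fin k) (G : SimpleGraph (Fin n)),
          next i (Nat.iterate (fun h : List (Sym2 (Fin n) × Bool) =>
              (next i h).elim h (fun e => h ++ [(e, decide (e ∈ G.edgeSet))])) K []) = none ∧
          out i (Nat.iterate (fun h : List (Sym2 (Fin n) × Bool) =>
              (next i h).elim h (fun e => h ++ [(e, decide (e ∈ G.edgeSet))])) K []) =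
            decide (H.IsContained G)) →
        ∃ G : SimpleGraph (Fin n),
          c * (n : ℝ) ^ 2 / (Real.log n) ^ 4 ≤
            ∑ i, p i * (((Nat.iterate (fun h : List (Sym2 (Fin n) × Bool) =>
              (next i h).elim h (fun e => h ++ [(e, decide (e ∈ G.edgeSet))])) K []).length : ℕ) :
                ℝ) := by
  obtain ⟨c, hc, h⟩ := Pool.Agent.KarpGP.containment_main
  refine ⟨c, hc, fun n hn H hH k K next out p hp hsum halg => ?_⟩
  exact Pool.Agent.KarpGP.transfer (fun G : SimpleGraph (Fin n) => H.IsContained G) _
    (h n hn H hH) k K next out p hp hsum (fun i G => (halg i G).2)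

end Pool.Agent.Results.MP_00c5f1_lc.ContainmentNearQuadratic
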