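import Pool.Agent.KarpGP.Homogeneous
import Pool.Agent.KarpGP.Transfer

/-!
If all minimal graphs of a nontrivial monotone graph property on `n` vertices have the same
vertex cover number `t`, then its zero-error randomized query complexity is at least
`(n - t) ^ 2 / 2500`. The property of containing a copy of a graph `H` is the case where `n - t`
is the independence number of `H`. The model of randomized query algorithms is, word for word,
the one used in the statement S14313 of this problem.
-/

set_option autoImplicit false
open Classical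

namespace Pool.Agent.Results.MP_00c5f1_lc.CoverNumberQuadratic

theorem result (n : ℕ) (P : SimpleGraph (Fin n) → Prop)
    (hinv : ∀ (σ : Equiv.Perm (Fin n)) (G : SimpleGraph (Fin n)),
      P (G.map (Equiv.toEmbedding σ)) ↔ P G)
    (hmono : ∀ G H : SimpleGraph (Fin n), G ≤ H → P G → P H)
    (htop : P ⊤) (hbot : ¬ P ⊥) (t : ℕ)
    (hcover : ∀ G : SimpleGraph (Fin n), P G → (∀ G' < G, ¬ P G') →
      IsLeast {k : ℕ | ∃ C : Finset (Fin n), C.card = k ∧ ∀ u v, G.Adj u v → u ∈ C ∨ v ∈ C} t) :
      ∀ (k K : ℕ)
        (next : Fin k → List (Sym2 (Fin n) × Bool) → Option (Sym2 (Fin n)))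
        (out : Fin k → List (Sym2 (Fin n) × Bool) → Bool)
        (p : Fin k → ℝ),
        (∀ i, 0 ≤ p i) → (∑ i, p i) = 1 →
        (∀ (i : Fin k) (G : SimpleGraph (Fin n)),
          next i (Nat.iterate (fun h : List (Sym2 (Fin n) × Bool) =>
              (next i h).elim h (fun e => h ++ [(e, decide (e ∈ G.edgeSet))])) K []) = none ∧
          out i (Nat.iterate (fun h : List (Sym2 (Fin n) × Bool) =>
              (next i h).elim h (fun e => h ++ [(e, decide (e ∈ G.edgeSet))])) K []) =
            decide (P G)) →
        ∃ G : SimpleGraph (Fin n),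
          ((n : ℝ) - t) ^ 2 / 2500 ≤
            ∑ i, p i * (((Nat.iterate (fun h : List (Sym2 (Fin n) × Bool) =>
              (next i h).elim h (fun e => h ++ [(e, decide (e ∈ G.edgeSet))])) K []).length : ℕ) :
                ℝ) := by
  intro k K next out p hp hsum halg
  refine Pool.Agent.KarpGP.transfer P _ ?_ k K next out p hp hsum (fun i G => (halg i G).2)
  have h1 := Pool.Agent.KarpGP.homogeneous_bound (P := P) (fun G H h => hmono G H h) ?_
    htop hbot t hcover
  · rw [Fintype.card_fin] at h1
    exact h1
  · rintro G H ⟨φ⟩ hG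
    have h2 : G.map (Equiv.toEmbedding φ.toEquiv) = H := by
      ext u v
      rw [SimpleGraph.map_adj]
      constructor
      · rintro ⟨a, b, hab, rfl, rfl⟩
        exact φ.map_rel_iff.2 hab
      · intro huv
        refine ⟨φ.symm u, φ.symm v, φ.symm.map_rel_iff.2 huv, by simp, by simp⟩
    rw [← h2]
    exact (hinv φ.toEquiv G).2 hG

end Pool.Agent.Results.MP_00c5f1_lc.CoverNumberQuadratic
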