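import Pool.Agent.KarpGP.FewMain
import Pool.Agent.KarpGP.Transfer

/-!
Let `P` be a nontrivial monotone graph property on `n` vertices with at most `2 ^ (n L)` minimal
graphs, and let `t` be the least size of a vertex set `T` such that the graph consisting of all
pairs meeting `T` has `P`. Then the zero-error randomized query complexity of `P` is at least a
constant times `(t / n) * n ^ 2 / (L log n) ^ 2`.
The model of randomized query algorithms is, word for word, the one used in the statement S14313
of this problem.
-/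

set_option autoImplicit false
open Classical

namespace Pool.Agent.Results.MP_00c5f1_lc.FewMinimalGraphs

theorem result (n : ℕ) (hn : 2 ≤ n) (P : SimpleGraph (Fin n) → Prop)
    (hinv : ∀ (σ : Equiv.Perm (Fin n)) (G : SimpleGraph (Fin n)),
      P (G.map (Equiv.toEmbedding σ)) ↔ P G)
    (hmono : ∀ G H : SimpleGraph (Fin n), G ≤ H → P G → P H)
    (htop : P ⊤) (hbot : ¬ P ⊥) (t : ℕ)
    (ht : IsLeast {k : ℕ | ∃ T : Finset (Fin n), T.card = k ∧
      P (SimpleGraph.fromRel (fun u _ => u ∈ T))} t)
    (L : ℕ) (hL : 1 ≤ L)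
    (hfew : {G : SimpleGraph (Fin n) | P G ∧ ∀ G' < G, ¬ P G'}.ncard ≤ 2 ^ (n * L)) :
      ∀ (k K : ℕ)
        (next : Fin k → List (Sym2 (Fin n) × Bool) → Option (Sym2 (Fin n)))
        (out : Fin k → List (Sym2 (Fin n) × Bool) → Bool)
        (p : Fin k → ℝ),
        (∀ i, 0 ≤ p i) → (∑ i, p i) = 1 →
        (∀ (i : Fin k) (G : SimpleGraph (Fin n)),
          next i (Nat.iterate (fun h : List (Sym2 (Fin n) × Bool) =>
              (next i h).elim h (fun e => h ++ [(e, decide (e ∈ G.edgeSet))])) K []) = none ∧
          out i (Nat.iterate (fun h : List (Sym2 (Fin n) × Bool) =>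
              (next i h).elim h (fun e => h ++ [(e, decide (e ∈ G.edgeSet))])) K []) =
            decide (P G)) →
        ∃ G : SimpleGraph (Fin n),
          (t : ℝ) * n / (400000000 * (L * Real.log n) ^ 2) ≤
            ∑ i, p i * (((Nat.iterate (fun h : List (Sym2 (Fin n) × Bool) =>
              (next i h).elim h (fun e => h ++ [(e, decide (e ∈ G.edgeSet))])) K []).length : ℕ) :
                ℝ) := by
  intro k K next out p hp hsum halg
  refine Pool.Agent.KarpGP.transfer P _ ?_ k K next out p hp hsum (fun i G => (halg i G).2)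
  refine Pool.Agent.KarpGP.few_main (P := P) (fun G H h => hmono G H h) ?_
    htop hbot n (Fintype.card_fin n) hn t ?_ L hL hfew
  · rintro G H ⟨φ⟩ hG
    have h2 : G.map (Equiv.toEmbedding φ.toEquiv) = H := by
      ext u v
      rw [SimpleGraph.map_adj]
      constructor
      · rintro ⟨a, b, hab, rfl, rfl⟩
        exact φ.map_rel_iff.2 hab
      · intro huv
        refine ⟨φ.symm u, φ.symm v, φ.symm.map_rel_iff.2 huv, by simp, by simp⟩
    rw [← h2]
    exact (hinv φ.toEquiv G).2 hG
  · have h3 : ∀ T : Finset (Fin n), (SimpleGraph.fromRel (fun u _ => u ∈ T)) =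
        Pool.Agent.KarpGP.dom T := by
      intro T
      ext u v
      simp [Pool.Agent.KarpGP.dom]
    simpa only [h3] using ht

end Pool.Agent.Results.MP_00c5f1_lc.FewMinimalGraphs
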