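import Pool.Agent.KarpGP.SplitMain
import Pool.Agent.KarpGP.Transfer

/-!
Let `t` be the least size of a vertex set `T` such that the graph consisting of all pairs meeting
`T` has the nontrivial monotone graph property `P` on `n` vertices. Then the zero-error randomized
query complexity of `P` is at least `(t / n) * max (n ^ (3 / 2)) ((n - t + 1) ^ 2) / 400`.
The model of randomized query algorithms is, word for word, the one used in the statement S14313
of this problem.
-/

set_option autoImplicit false
open Classical

namespace Pool.Agent.Results.MP_00c5f1_lc.SplitThreshold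

theorem result (n : ℕ) (P : SimpleGraph (Fin n) → Prop)
    (hinv : ∀ (σ : Equiv.Perm (Fin n)) (G : SimpleGraph (Fin n)),
      P (G.map (Equiv.toEmbedding σ)) ↔ P G)
    (hmono : ∀ G H : SimpleGraph (Fin n), G ≤ H → P G → P H)
    (htop : P ⊤) (hbot : ¬ P ⊥) (t : ℕ)
    (ht : IsLeast {k : ℕ | ∃ T : Finset (Fin n), T.card = k ∧
      P (SimpleGraph.fromRel (fun u _ => u ∈ T))} t) :
      ∀ (k K : ℕ)
        (next : Fin k → List (Sym2 (Fin n) × Bool) → Option (Sym2 (Fin n)))
        (out : Fin k → List (Sym2 (Fin n) × Bool) → Bool)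
        (p : Fin k → ℝ),
        (∀ i, 0 ≤ p i) → (∑ i, p i) = 1 →
        (∀ (i : Fin k) (G : SimpleGraph (Fin n)),
          next i (Nat.iterate (fun h : List (Sym2 (Fin n) × Bool) =>
              (next i h).elim h (fun e => h ++ [(e, decide (e ∈ G.edgeSet))])) K []) = none ∧
          out i (Nat.iterate (fun h : List (Sym2 (Fin n) × Bool) =>
              (next i h).elim h (fun e => h ++ [(e, decide (e ∈ G.edgeSet))])) K []) =
            decide (P G)) →
        ∃ G : SimpleGraph (Fin n),
          (t : ℝ) / n * max ((n : ℝ) * Real.sqrt n) (((n : ℝ) - t + 1) ^ 2) / 400 ≤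
            ∑ i, p i * (((Nat.iterate (fun h : List (Sym2 (Fin n) × Bool) =>
              (next i h).elim h (fun e => h ++ [(e, decide (e ∈ G.edgeSet))])) K []).length : ℕ) :
                ℝ) := by
  intro k K next out p hp hsum halg
  refine Pool.Agent.KarpGP.transfer P _ ?_ k K next out p hp hsum (fun i G => (halg i G).2)
  refine Pool.Agent.KarpGP.split_main (P := P) (fun G H h => hmono G H h) ?_
    htop hbot n (Fintype.card_fin n) t ?_
  · rintro G H ⟨φ⟩ hG
    have h2 : G.map (Equiv.toEmbedding φ.toEquiv) = H := by
      ext u v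
      rw [SimpleGraph.map_adj]
      constructor
      · rintro ⟨a, b, hab, rfl, rfl⟩
        exact φ.map_rel_iff.2 hab
      · intro huv
        refine ⟨φ.symm u, φ.symm v, φ.symm.map_rel_iff.2 huv, by simp, by simp⟩
    rw [← h2]
    exact (hinv φ.toEquiv G).2 hG
  · have h3 : ∀ T : Finset (Fin n), (SimpleGraph.fromRel (fun u _ => u ∈ T)) =
        Pool.Agent.KarpGP.dom T := by
      intro T
      ext u v
      simp [Pool.Agent.KarpGP.dom]
    simpa only [h3] using ht

end Pool.Agent.Results.MP_00c5f1_lc.SplitThreshold
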